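import Mathlib

set_option autoImplicit false

open Topology Filter

namespace Pool.Agent.Results.MP_f24352_gt.NotNCharacterized

/-- A topological abelian group is totally bounded if for every neighbourhood `U` of `0` there is
a finite set `E` with `U + E = X`. -/
def IsTotallyBdd (X : Type) [AddCommGroup X] [TopologicalSpace X] : Prop :=
  ∀ U ∈ 𝓝 (0 : X), ∃ E : Set X, E.Finite ∧ ∀ x : X, ∃ u ∈ U, ∃ e ∈ E, u + e = x

/-- A subgroup is N-characterized if it is the annihilator of a countable set of continuous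
characters. -/
def NCharacterized {X : Type} [AddCommGroup X] [TopologicalSpace X] [IsTopologicalAddGroup X]
    (H : AddSubgroup X) : Prop :=
  ∃ B : Set (X →ₜ+ UnitAddCircle), B.Countable ∧ ∀ x : X, x ∈ H ↔ ∀ χ ∈ B, χ x = 0

abbrev Br := ℕ → Bool

abbrev K := (n : ℕ) → (Fin n → Bool) → ZMod 2

def r (n : ℕ) (x : Br) : Fin n → Bool := fun i => x i

noncomputable def b (c : Br →₀ ZMod 2) : K := fun n => ⇑(Finsupp.mapDomain (r n) c)

lemma b_add (c d : Br →₀ ZMod 2) : b (c + d) = b c + b d := by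
  funext n
  simp only [b, Finsupp.mapDomain_add, Pi.add_apply]
  rfl

lemma b_zero : b 0 = 0 := by
  funext n
  simp [b]

lemma b_neg (c : Br →₀ ZMod 2) : b (-c) = - b c := by
  have h := b_add (-c) c
  rw [neg_add_cancel, b_zero] at h
  exact (neg_eq_of_add_eq_zero_left h.symm).symm

/-- The group: pairs `(g, c)` with `c` finitely supported and `g` equal, up to finitely many
levels, to the sum of branch indicators given by `c`. -/
def XX : AddSubgroup (K × (Br → ZMod 2)) where
  carrier := {z | ∃ c : Br →₀ ZMod 2, z.2 = ⇑c ∧ ∀ᶠ n in atTop, z.1 n = b c n}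
  zero_mem' := ⟨0, rfl, by simp [b_zero]⟩
  add_mem' := by
    rintro ⟨g, c⟩ ⟨g', c'⟩ ⟨d, h1, h2⟩ ⟨d', h1', h2'⟩
    refine ⟨d + d', ?_, ?_⟩
    · simp only [Prod.snd_add] at *
      rw [h1, h1']; rfl
    · filter_upwards [h2, h2'] with n hn hn'
      simp only [Prod.fst_add, Pi.add_apply, b_add] at *
      rw [hn, hn']
  neg_mem' := by
    rintro ⟨g, c⟩ ⟨d, h1, h2⟩
    refine ⟨-d, ?_, ?_⟩
    · simp only [Prod.snd_neg] at *
      rw [h1]; rfl
    · filter_upwards [h2] with n hn
      simp only [Prod.fst_neg, Pi.neg_apply, b_neg] at *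
      rw [hn]

def FF : AddSubgroup XX := ((AddMonoidHom.snd K (Br → ZMod 2)).comp XX.subtype).ker

lemma mem_FF (z : XX) : z ∈ FF ↔ z.1.2 = 0 := Iff.rfl

lemma isClosed_FF : IsClosed (FF : Set XX) := by
  have : (FF : Set XX) = (fun z : XX => z.1.2) ⁻¹' {0} := by
    ext z; simp [mem_FF]
  rw [this]
  exact isClosed_singleton.preimage (continuous_snd.comp continuous_subtype_val)

lemma b_ne_zero {c : Br →₀ ZMod 2} (hc : c ≠ 0) : ∀ᶠ n in atTop, b c n ≠ 0 := by
  classical
  -- for large n the restriction is injective on the support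
  have hinj : ∀ᶠ n in atTop, Set.InjOn (r n) (c.support : Set Br) := by
    have h1 : ∀ x ∈ c.support, ∀ y ∈ c.support, ∀ᶠ n in atTop, r n x = r n y → x = y := by
      intro x _ y _
      by_cases hxy : x = y
      · simp [hxy]
      · obtain ⟨i, hi⟩ := Function.ne_iff.1 hxy
        filter_upwards [eventually_gt_atTop i] with n hn h
        exact absurd (congrFun h ⟨i, hn⟩) hi
    have h2 : ∀ᶠ n in atTop, ∀ x ∈ c.support, ∀ y ∈ c.support, r n x = r n y → x = y := by
      rw [Filter.eventually_all_finset]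
      intro x hx
      rw [Filter.eventually_all_finset]
      intro y hy
      exact h1 x hx y hy
    filter_upwards [h2] with n hn x hx y hy h
    exact hn x hx y hy h
  filter_upwards [hinj] with n hn h0
  obtain ⟨x, hx⟩ := Finsupp.ne_iff.1 hc
  have hxs : x ∈ c.support := by simpa using hx
  have h3 : Finsupp.mapDomain (r n) c (r n x) = c x :=
    Finsupp.mapDomain_apply' (c.support : Set Br) c (fun _ h => h) hn hxs
  have h4 : b c n (r n x) = 0 := by rw [h0]; rfl
  apply hx
  rw [← h3]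
  exact h4

lemma isGδ_FF : IsGδ (FF : Set XX) := by
  have h : (FF : Set XX) = ⋂ N : ℕ, {z : XX | ∃ n ≥ N, z.1.1 n = 0} := by
    ext z
    obtain ⟨⟨g, c⟩, d, h1, h2⟩ := z
    simp only [SetLike.mem_coe, mem_FF, Set.mem_iInter, Set.mem_ofPred_eq]
    simp only at h1 h2
    constructor
    · intro hc N
      have hd : d = 0 := by
        apply DFunLike.coe_injective
        rw [← h1, hc]; rfl
      subst hd
      obtain ⟨n, hn1, hn2⟩ := (h2.and (eventually_ge_atTop N)).exists
      exact ⟨n, hn2, by rw [hn1, b_zero]; rfl⟩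
    · intro hN
      by_contra hc
      have hd : d ≠ 0 := by
        rintro rfl
        apply hc
        rw [h1]; rfl
      obtain ⟨N, hN'⟩ := eventually_atTop.1 (h2.and (b_ne_zero hd))
      obtain ⟨n, hn, hn0⟩ := hN N
      have := hN' n hn
      exact this.2 (by rw [← this.1, hn0])
  rw [h]
  refine IsGδ.iInter_of_isOpen fun N => ?_
  have : {z : XX | ∃ n ≥ N, z.1.1 n = 0} = ⋃ n : ℕ, ⋃ _ : n ≥ N, (fun z : XX => z.1.1 n) ⁻¹' {0} := by
    ext z; simp
  rw [this]
  refine isOpen_iUnion fun n => isOpen_iUnion fun _ => ?_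
  refine (isOpen_discrete _).preimage ?_
  exact (continuous_apply n).comp (continuous_fst.comp continuous_subtype_val)

lemma totallyBdd_of_compact {G : Type} [AddCommGroup G] [TopologicalSpace G]
    [IsTopologicalAddGroup G] [CompactSpace G] (X : AddSubgroup G) : IsTotallyBdd X := by
  classical
  intro U hU
  rw [nhds_subtype_eq_comap, Filter.mem_comap] at hU
  obtain ⟨W, hW, hWU⟩ := hU
  have hW' : W ∈ 𝓝 (0 : G) := hW
  obtain ⟨V, hV, hVo, hV2⟩ : ∃ V ∈ 𝓝 (0 : G), IsOpen V ∧ ∀ v ∈ V, ∀ w ∈ V, v - w ∈ W := by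
    have hc : Continuous fun q : G × G => q.1 - q.2 := continuous_sub
    have : (fun q : G × G => q.1 - q.2) ⁻¹' W ∈ 𝓝 ((0 : G), (0 : G)) := by
      apply hc.continuousAt
      simpa using hW'
    rw [nhds_prod_eq, Filter.mem_prod_iff] at this
    obtain ⟨V1, h1, V2, h2, h3⟩ := this
    obtain ⟨V, hVsub, hVo, hV0⟩ := mem_nhds_iff.1 (inter_mem h1 h2)
    refine ⟨V, hVo.mem_nhds hV0, hVo, ?_⟩
    intro v hv w hw
    exact @h3 (v, w) ⟨(hVsub hv).1, (hVsub hw).2⟩
  -- cover
  obtain ⟨A, hA⟩ := isCompact_univ.elim_finite_subcover (fun g : G => (fun z => z - g) ⁻¹' V)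
    (fun g => hVo.preimage (continuous_id.sub continuous_const))
    (fun z _ => Set.mem_iUnion.2 ⟨z, by simpa using mem_of_mem_nhds hV⟩)
  let f : G → X := fun g => if h : ∃ x : X, (x : G) - g ∈ V then h.choose else 0
  refine ⟨f '' (A : Set G), A.finite_toSet.image f, ?_⟩
  intro x
  obtain ⟨g, hg⟩ := Set.mem_iUnion.1 (hA (Set.mem_univ (x : G)))
  obtain ⟨hgA, hg2⟩ := Set.mem_iUnion.1 hg
  have hex : ∃ x : X, (x : G) - g ∈ V := ⟨x, hg2⟩
  refine ⟨x - f g, ?_, f g, ⟨g, hgA, rfl⟩, by simp⟩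
  apply hWU
  have hf : (f g : G) - g ∈ V := by
    have : f g = hex.choose := by simp only [f]; rw [dif_pos hex]
    rw [this]
    exact hex.choose_spec
  have := hV2 _ hg2 _ hf
  have e : (x : G) - g - ((f g : G) - g) = ((x - f g : X) : G) := by push_cast; abel
  rw [e] at this
  exact this

/-- The elements attached to a branch. -/
noncomputable def e (x : Br) : XX :=
  ⟨(b (Finsupp.single x 1), ⇑(Finsupp.single x (1 : ZMod 2))), Finsupp.single x 1, rfl,
    Eventually.of_forall fun _ => rfl⟩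

lemma e_not_mem (x : Br) : e x ∉ FF := by
  intro h
  rw [mem_FF] at h
  have := congrFun h x
  simp [e] at this

lemma two_mul_XX (z : XX) : z + z = 0 := by
  have h2 : ∀ t : ZMod 2, t + t = 0 := by decide
  apply Subtype.ext
  refine Prod.ext ?_ ?_
  · funext n s
    exact h2 _
  · funext y
    exact h2 _

lemma vanish (χ : XX →ₜ+ UnitAddCircle) (hχ : ∀ z ∈ FF, χ z = 0) :
    ∃ E : Set Br, E.Finite ∧ ∀ x ∉ E, χ (e x) = 0 := by
  classical
  have hker : {z : XX | χ z = 0} ∈ 𝓝 (0 : XX) := by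
    have hfin : ({y : UnitAddCircle | 2 • y = 0} \ {0}).Finite :=
      (AddCircle.finite_torsion (p := (1 : ℝ)) (n := 2) (by norm_num)).subset Set.sdiff_subset
    have hU : ({y : UnitAddCircle | 2 • y = 0} \ {0})ᶜ ∈ 𝓝 (χ 0) := by
      rw [map_zero]
      exact hfin.isClosed.isOpen_compl.mem_nhds (by simp)
    have h1 := χ.continuous_toFun.continuousAt hU
    refine Filter.mem_of_superset h1 ?_
    intro z hz
    by_contra h0
    apply hz
    refine ⟨?_, h0⟩
    show 2 • χ z = 0
    rw [two_nsmul, ← map_add, two_mul_XX, map_zero]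
  rw [nhds_subtype_eq_comap, Filter.mem_comap] at hker
  obtain ⟨W, hW, hWU⟩ := hker
  have hW' : W ∈ 𝓝 ((0 : K), (0 : Br → ZMod 2)) := hW
  rw [nhds_prod_eq, Filter.mem_prod_iff] at hW'
  obtain ⟨V1, h1, V2, h2, h3⟩ := hW'
  rw [nhds_pi, Filter.mem_pi] at h1 h2
  obtain ⟨I, hI, t1, ht1, ht1'⟩ := h1
  obtain ⟨E, hE, t2, ht2, ht2'⟩ := h2
  refine ⟨E, hE, ?_⟩
  intro x hx
  let f : XX := ⟨((fun n => if n ∈ I then b (Finsupp.single x 1) n else 0), 0), 0, rfl, by
    have : ∀ᶠ n in atTop, n ∉ I := by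
      rw [← Nat.cofinite_eq_atTop]
      exact hI.eventually_cofinite_notMem
    filter_upwards [this] with n hn
    simp only [if_neg hn, b_zero]
    rfl⟩
  have hf : f ∈ FF := by rw [mem_FF]
  have hz : χ (e x - f) = 0 := by
    apply hWU
    apply h3
    refine ⟨ht1' ?_, ht2' ?_⟩
    · intro n hn
      have : (e x - f).1.1 n = 0 := by
        show b (Finsupp.single x 1) n - (if n ∈ I then b (Finsupp.single x 1) n else 0) = 0
        rw [if_pos hn, sub_self]
      show (e x - f).1.1 n ∈ t1 n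
      rw [this]
      exact mem_of_mem_nhds (ht1 n)
    · intro y hy
      have : (e x - f).1.2 y = 0 := by
        show (Finsupp.single x (1 : ZMod 2)) y - 0 = 0
        rw [sub_zero, Finsupp.single_apply, if_neg]
        rintro rfl
        exact hx hy
      show (e x - f).1.2 y ∈ t2 y
      rw [this]
      exact mem_of_mem_nhds (ht2 y)
  rw [map_sub, hχ f hf, sub_zero] at hz
  exact hz

lemma not_NChar : ¬ NCharacterized FF := by
  rintro ⟨B, hB, h⟩
  have h1 : ∀ χ ∈ B, ∃ E : Set Br, E.Finite ∧ ∀ x ∉ E, χ (e x) = 0 := by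
    intro χ hχ
    exact vanish χ fun z hz => (h z).1 hz χ hχ
  choose! E hE1 hE2 using h1
  have hc : (⋃ χ ∈ B, E χ).Countable := hB.biUnion fun χ hχ => (hE1 χ hχ).countable
  have hne : (⋃ χ ∈ B, E χ) ≠ Set.univ := by
    intro huniv
    rw [huniv] at hc
    have : Countable Br := Set.countable_univ_iff.1 hc
    obtain ⟨f, hf⟩ := exists_surjective_nat Br
    obtain ⟨m, hm⟩ := hf fun n => !(f n n)
    have := congrFun hm m
    simp at this
  obtain ⟨x, hx⟩ := (Set.ne_univ_iff_exists_notMem _).1 hne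
  apply e_not_mem x
  rw [h]
  intro χ hχ
  apply hE2 χ hχ
  intro hxE
  exact hx (Set.mem_biUnion hχ hxE)

/-- There are a precompact (Hausdorff, totally bounded) abelian group `X` and a closed
`G_δ`-subgroup `F` of `X` which is not the annihilator of a countable set of characters. -/
theorem result :
    ∃ (X : Type) (_ : AddCommGroup X) (_ : TopologicalSpace X) (_ : IsTopologicalAddGroup X)
      (F : AddSubgroup X),
      T2Space X ∧ IsTotallyBdd X ∧ IsClosed (F : Set X) ∧ IsGδ (F : Set X) ∧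
        ¬ NCharacterized F :=
  ⟨XX, inferInstance, inferInstance, inferInstance, FF, inferInstance,
    totallyBdd_of_compact XX, isClosed_FF, isGδ_FF, not_NChar⟩

end Pool.Agent.Results.MP_f24352_gt.NotNCharacterized
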